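import Mathlib
import Pool.Agent.Helper460_FQ.Main

/-!
# Free products of cyclic groups and groups generated by elements of finite order

Let `Γ = C_1 * ... * C_k` be a free product of nontrivial cyclic groups, finite or infinite. For
`k ≥ 2`, apart from `ℤ/2 * ℤ/2`, these are the non-cocompact lattices in `PSL (2, ℝ)`, for example
`PSL (2, ℤ) = ℤ/2 * ℤ/3`, the Hecke groups and the free groups. Let `Λ` be a residually finite group
with the same finite quotients as `Γ`, which is generated by `k` elements, of which as many have
finite order as there are finite factors of `Γ`. Then `Λ` is isomorphic to `Γ`.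

Steps of the proof. (1) Let `x ∈ Λ` have prime order `p`, and let `R` be a common finite quotient of
`Γ` and `Λ` in which the image `q` of `x` is not trivial. If no conjugate of a nontrivial element of
the image of a finite factor of `Γ` is in `⟨q⟩`, then the finite factors act freely on `R / ⟨q⟩`, and
`Γ → R` lifts to a homomorphism into the extension `E` of `R` inside the wreath product of `ℤ / p²`
with the permutations of `R / ⟨q⟩`; but no element of `E` over `q` has order `p`, while a compatible
homomorphism `Λ → E` gives one. So `q` is conjugate to a power of a generator of a finite factor
`C_i`. (2) An element of finite order of `Λ` commuting with `x` maps trivially to the finite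
quotients of the other factors, by a computation in a wreath product of cyclic groups. (3) So for a
generator `y_j` of finite order there is a finite factor `C_i` whose order kills `y_j`, such that
`y_j` is trivial in the other factors; counting homomorphisms to `ℤ / p` shows that `j ↦ i` is a
permutation of the indices of the finite factors, and therefore `Λ` is a quotient of `Γ`.
(4) `Γ` is residually finite, by the actions on the reduced words of bounded length, and a surjection
from a finitely generated residually finite group onto a group with the same finite quotients is
injective.
-/

set_option autoImplicit false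

namespace Pool.Agent.Results.MP_305fdd_al.TorsionGenerated

/-- Let `Γ` be the free product of the cyclic groups `ℤ / m_i`, `i = 1, ..., k`, with `m_i ≠ 1`; the
factor is infinite cyclic if `m_i = 0`. Let `Λ` be a residually finite group with the same finite
quotients as `Γ`. If `Λ` is generated by `k` elements `y_i` such that `y_i` has finite order
whenever `m_i ≠ 0`, then `Λ` is isomorphic to `Γ`. -/
theorem result : ∀ (k : ℕ) (m : Fin k → ℕ), (∀ i, m i ≠ 1) → ∀ (Λ : Type) [Group Λ],
    (∀ g : Λ, g ≠ 1 → ∃ H : Subgroup Λ, H.index ≠ 0 ∧ g ∉ H) →
    (∀ (Q : Type) [Group Q] [Finite Q],
      (∃ f : Λ →* Q, Function.Surjective f) ↔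
      (∃ f : Monoid.CoprodI (fun i => Multiplicative (ZMod (m i))) →* Q,
        Function.Surjective f)) →
    (∃ y : Fin k → Λ, (∀ i, m i ≠ 0 → IsOfFinOrder (y i)) ∧
      Subgroup.closure (Set.range y) = ⊤) →
    Nonempty (Λ ≃* Monoid.CoprodI (fun i => Multiplicative (ZMod (m i)))) := by
  intro k m hm Λ _ hRF hq ⟨y, hy, hgen⟩
  exact Helper460_FQ.main m hm Λ hRF hq y hy hgen

end Pool.Agent.Results.MP_305fdd_al.TorsionGenerated
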